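import Pool.Agent.U798.GP.Spec

set_option autoImplicit false

/-!
Project GQ, package PART (helper460): sums over the classes of an equivalence relation.
-/

namespace Pool.Agent.U460.GP

open Pool.Agent.U798.GP

/-- PART -/
theorem t_PART : Pool.Agent.U798.GP.S_PART := by
  intro ι R hR g hg h
  let S : Setoid ι := ⟨R, hR⟩
  have h1 := hg.hasSum.tsum_fiberwise (Quotient.mk S)
  have h2 : (fun c : Quotient S => ∑' b : (Quotient.mk S) ⁻¹' {c}, g b) = fun _ => 0 := by
    funext c
    induction c using Quotient.inductionOn with
    | h i =>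
      rw [tsum_subtype (Quotient.mk S ⁻¹' {Quotient.mk S i}) g, ← h i]
      have h3 : (Quotient.mk S ⁻¹' {Quotient.mk S i}) = {j | R j i} := by
        ext j
        rw [Set.mem_preimage, Set.mem_singleton_iff, Set.mem_setOf_eq]
        exact Quotient.eq
      rw [h3]
  rw [h2] at h1
  exact h1.unique hasSum_zero

end Pool.Agent.U460.GP
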